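import Mathlib

/-!
Degrees of factors of the even Pascalian polynomials.
-/

set_option autoImplicit false

namespace Pool.Agent.Lib.MP_9fb898_nt

open Polynomial Finset

/-- the value of the Pascalian polynomial of index `2 m` -/
def val {R : Type*} [CommRing R] (m : ℕ) (x : R) : R :=
  ∑ i ∈ range (2 * m + 1), (((2 * m).choose (i / 2) : ℕ) : R) * x ^ i

theorem map_val {R S F : Type*} [CommRing R] [CommRing S] [FunLike F R S] [RingHomClass F R S]
    (f : F) (m : ℕ) (x : R) : f (val m x) = val m (f x) := by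
  simp [val, map_sum]

theorem sum_split {R : Type*} [AddCommMonoid R] (f : ℕ → R) (m : ℕ) :
    ∑ i ∈ range (2 * m + 1), f i
      = ∑ i ∈ range (m + 1), f (2 * i) + ∑ i ∈ range m, f (2 * i + 1) := by
  induction m with
  | zero => simp
  | succ m ih =>
    have e : 2 * (m + 1) + 1 = 2 * m + 1 + 1 + 1 := by ring
    rw [e, sum_range_succ, sum_range_succ, ih, sum_range_succ _ (m + 1), sum_range_succ _ m,
      sum_range_succ (fun i => f (2 * i + 1)) m]
    have e2 : 2 * m + 1 + 1 = 2 * (m + 1) := by ring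
    rw [e2]
    abel

theorem val_eq {R : Type*} [CommRing R] (m : ℕ) (x : R) :
    val m x = ∑ i ∈ range (m + 1), (((2 * m).choose i : ℕ) : R) * (x ^ 2) ^ i
      + x * ∑ i ∈ range m, (((2 * m).choose i : ℕ) : R) * (x ^ 2) ^ i := by
  rw [val, sum_split, mul_sum]
  congr 1
  · refine sum_congr rfl fun i _ => ?_
    rw [← pow_mul, Nat.mul_div_cancel_left _ (by norm_num)]
  · refine sum_congr rfl fun i _ => ?_
    have : (2 * i + 1) / 2 = i := by omega
    rw [this]
    ring

theorem coeff_val {R : Type*} [CommRing R] (m i : ℕ) :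
    (val m (X : R[X])).coeff i
      = if i ≤ 2 * m then (((2 * m).choose (i / 2) : ℕ) : R) else 0 := by
  unfold val
  rw [finsetSum_coeff]
  simp only [← C_eq_natCast, coeff_C_mul, coeff_X_pow, mul_ite, mul_one, mul_zero]
  rw [sum_ite_eq]
  simp only [mem_range, Nat.lt_succ_iff]

theorem natDegree_val (m : ℕ) : (val m (X : ℤ[X])).natDegree = 2 * m := by
  refine le_antisymm (natDegree_le_iff_coeff_eq_zero.2 fun i hi => ?_) (le_natDegree_of_ne_zero ?_)
  · rw [coeff_val, if_neg (by omega)]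
  · rw [coeff_val, if_pos le_rfl]
    exact_mod_cast (Nat.choose_pos (by omega)).ne'

theorem leadingCoeff_val (m : ℕ) : (val m (X : ℤ[X])).leadingCoeff = ((2 * m).choose m : ℕ) := by
  rw [leadingCoeff, natDegree_val, coeff_val, if_pos le_rfl, Nat.mul_div_cancel_left _ (by norm_num)]

theorem val_pos (m : ℕ) (x : ℝ) : 0 < val m x := by
  have hs : ∀ k, 0 ≤ ∑ i ∈ range k, (((2 * m).choose i : ℕ) : ℝ) * (x ^ 2) ^ i := fun k =>
    sum_nonneg fun i _ => by positivity
  have hc : (0 : ℝ) < ((2 * m).choose m : ℕ) := by exact_mod_cast Nat.choose_pos (by omega)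
  rw [val_eq, sum_range_succ]
  rcases lt_trichotomy x (-1) with h | h | h
  · have h1 : ∑ i ∈ range m, (((2 * m).choose i : ℕ) : ℝ) * (x ^ 2) ^ i
        ≤ ((2 * m).choose m : ℕ) * ∑ i ∈ range m, (x ^ 2) ^ i := by
      rw [mul_sum]
      refine sum_le_sum fun i _ => mul_le_mul_of_nonneg_right ?_ (by positivity)
      have := Nat.choose_le_middle i (2 * m)
      rw [Nat.mul_div_cancel_left _ (by norm_num)] at this
      exact_mod_cast this
    have h2 := geom_sum_mul (x ^ 2) m
    have h3 : 0 ≤ ∑ i ∈ range m, (x ^ 2) ^ i := sum_nonneg fun i _ => by positivity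
    set G := ∑ i ∈ range m, (x ^ 2) ^ i
    set B := ∑ i ∈ range m, (((2 * m).choose i : ℕ) : ℝ) * (x ^ 2) ^ i
    set c : ℝ := (((2 * m).choose m : ℕ) : ℝ)
    have h4 : (-x - 1) * B ≤ (-x - 1) * (c * G) := mul_le_mul_of_nonneg_left h1 (by linarith)
    have h5 : (-x - 1) * G ≤ G * (x ^ 2 - 1) := by nlinarith [mul_nonneg h3 (show 0 ≤ x ^ 2 + x by nlinarith)]
    have h6 : c * ((-x - 1) * G) ≤ c * (G * (x ^ 2 - 1)) := mul_le_mul_of_nonneg_left h5 hc.le
    rw [h2] at h6
    nlinarith
  · subst h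
    norm_num
    exact Nat.choose_pos (by omega)
  · rcases eq_or_ne x 0 with rfl | h0
    · rw [← sum_range_succ, sum_range_succ']
      simp
    · have h1 : 0 < ((2 * m).choose m : ℕ) * (x ^ 2) ^ m := by positivity
      nlinarith [mul_nonneg (hs m) (show 0 ≤ 1 + x by linarith)]

theorem even_of_no_root (g : ℝ[X]) (h : ∀ x, ¬ g.IsRoot x) : Even g.natDegree := by
  induction g using UniqueFactorizationMonoid.induction_on_prime with
  | h₁ => simp
  | h₂ g hg => rw [natDegree_eq_zero_of_isUnit hg]; simp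
  | h₃ g q hg hq ih =>
    rw [natDegree_mul hq.ne_zero hg]
    have h1 := hq.irreducible.natDegree_le_two
    have h2 := hq.irreducible.natDegree_pos
    have h3 : q.natDegree ≠ 1 := by
      intro h3
      obtain ⟨x, hx⟩ := exists_root_of_degree_eq_one
        ((degree_eq_iff_natDegree_eq hq.ne_zero).2 h3)
      exact h x (by simp [IsRoot, hx.eq_zero])
    have h4 : q.natDegree = 2 := by omega
    rw [h4]
    exact even_two.add (ih fun x hx => h x (by simp [IsRoot, hx.eq_zero]))

theorem even_factor {m : ℕ} {g h : ℤ[X]} (e : g * h = val m X) : Even g.natDegree := by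
  rw [← natDegree_map_eq_of_injective (f := Int.castRingHom ℝ) (RingHom.injective_int _)]
  refine even_of_no_root _ fun x hx => ?_
  have h1 := congrArg (aeval x) e
  rw [map_mul, map_val, aeval_X] at h1
  have h2 : aeval x g = 0 := by
    rw [aeval_def, eval₂_eq_eval_map]
    exact hx
  rw [h2, zero_mul] at h1
  exact (val_pos m x).ne h1

theorem val_char {R : Type*} [CommRing R] {p j m : ℕ} [Fact p.Prime] [CharP R p]
    (hp : m < p) (hj : 2 * m = p + j) (x : R) : val m x = (1 + x ^ 2) ^ j * (1 + x) := by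
  have key : ∀ k, j < k → k ≤ p → ∑ i ∈ range k, (((2 * m).choose i : ℕ) : R) * (x ^ 2) ^ i
      = (1 + x ^ 2) ^ j := by
    intro k h1 h2
    rw [add_comm 1, add_pow, ← sum_subset (range_subset_range.2 (show j + 1 ≤ k by omega))]
    all_goals
      have hc : ∀ i, i < p → (((2 * m).choose i : ℕ) : R) = (j.choose i : ℕ) := by
        intro i hi
        have h3 := Choose.choose_modEq_choose_mod_mul_choose_div_nat (n := 2 * m) (k := i) (p := p)
        have e1 : 2 * m % p = j := by
          rw [hj, Nat.add_mod_left, Nat.mod_eq_of_lt (by omega)]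
        rw [e1, Nat.mod_eq_of_lt hi, Nat.div_eq_of_lt hi, Nat.choose_zero_right, mul_one] at h3
        exact (CharP.natCast_eq_natCast R p).2 h3
    · refine sum_congr rfl fun i hi => ?_
      rw [hc i (by have := mem_range.1 hi; omega)]
      ring
    · intro i hi hi2
      rw [hc i (by have := mem_range.1 hi; omega),
        Nat.choose_eq_zero_of_lt (by simpa using hi2)]
      simp
  rw [val_eq, key _ (by omega) (by omega), key _ (by omega) (by omega)]
  ring

theorem val_mod (m : ℕ) (hm : 1 ≤ m) : ∃ U : ℤ[X], ∃ c ε : ℤ, 2 * c = ((2 * m).choose m : ℕ) ∧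
    ε * ε = 1 ∧ val m X = (X ^ 2 + 1) * U + C c * C ε * (1 - X) := by
  obtain ⟨k, rfl⟩ : ∃ k, m = k + 1 := ⟨m - 1, by omega⟩
  have key : ∀ r, ∃ U : ℤ[X], ∑ i ∈ range (r + 1), (((2 * (k + 1)).choose i : ℕ) : ℤ[X])
      * (X ^ 2) ^ i = (X ^ 2 + 1) * U + C ((-1 : ℤ) ^ r * (((2 * k + 1).choose r : ℕ) : ℤ)) := by
    intro r
    have h1 : (X ^ 2 + 1 : ℤ[X]) ∣ ∑ i ∈ range (r + 1), (((2 * (k + 1)).choose i : ℕ) : ℤ[X])
        * ((X ^ 2) ^ i - (-1) ^ i) := by
      refine dvd_sum fun i _ => Dvd.dvd.mul_left ?_ _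
      simpa using sub_dvd_pow_sub_pow (X ^ 2 : ℤ[X]) (-1) i
    obtain ⟨U, hU⟩ := h1
    refine ⟨U, ?_⟩
    have h2 := Int.alternating_sum_range_choose_eq_choose (n := 2 * k + 1) (m := r)
    have e : 2 * k + 1 + 1 = 2 * (k + 1) := by ring
    rw [e] at h2
    rw [← hU, ← h2, map_sum, ← sum_add_distrib]
    refine sum_congr rfl fun i _ => ?_
    simp only [map_mul, map_pow, map_neg, map_one, map_natCast]
    ring
  obtain ⟨U1, h1⟩ := key (k + 1)
  obtain ⟨U2, h2⟩ := key k
  have hs : (2 * k + 1).choose (k + 1) = (2 * k + 1).choose k := Nat.choose_symm_half k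
  refine ⟨U1 + X * U2, ((2 * k + 1).choose k : ℕ), (-1) ^ (k + 1), ?_, ?_, ?_⟩
  · have e : 2 * (k + 1) = 2 * k + 1 + 1 := by ring
    rw [e, Nat.choose_succ_succ', hs]
    push_cast
    ring
  · rw [← mul_pow]; simp
  · rw [val_eq, h1, h2, hs]
    simp only [map_mul, map_pow, map_neg, map_one, map_natCast]
    ring

theorem not_sq_dvd {p m : ℕ} (hp : p.Prime) (h1 : m < p) :
    ¬ ((p : ℤ) * p ∣ (((2 * m).choose m : ℕ) : ℤ)) := by
  intro h
  have h2 : p ^ 2 ∣ (2 * m).choose m := by
    rw [pow_two]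
    exact_mod_cast h
  have h3 := (hp.pow_dvd_iff_le_factorization (Nat.choose_pos (by omega)).ne').1 h2
  have h4 := Nat.factorization_choose_le_one (p := p) (n := 2 * m) (k := m) (by nlinarith)
  omega

section

variable {p : ℕ} [Fact p.Prime] {K : Type*} [Field K] [Algebra (ZMod p) K]

theorem exists_gen (t : K) (ht : t ^ 2 = -1) : ∃ q : ℤ[X], aeval t q = 0 ∧
    q.map (Int.castRingHom (ZMod p)) ≠ 0 ∧
    ∀ f : ℤ[X], aeval t f = 0 → ∃ a b : ℤ[X], f = q * a + C (p : ℤ) * b := by
  have hint : IsIntegral (ZMod p) t := by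
    refine ⟨X ^ 2 + 1, by monicity!, ?_⟩
    simp [ht]
  have hsurj := Polynomial.map_surjective (Int.castRingHom (ZMod p)) (ZMod.ringHom_surjective _)
  have hev : ∀ f : ℤ[X], aeval t (f.map (Int.castRingHom (ZMod p))) = aeval t f := by
    intro f
    exact aeval_map_algebraMap (ZMod p) t f
  obtain ⟨q, hq⟩ := hsurj (minpoly (ZMod p) t)
  refine ⟨q, by rw [← hev, hq, minpoly.aeval], by rw [hq]; exact minpoly.ne_zero hint, ?_⟩
  intro f hf
  obtain ⟨a', ha'⟩ := minpoly.dvd (ZMod p) t (p := f.map (Int.castRingHom (ZMod p)))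
    (by rw [hev, hf])
  obtain ⟨a, rfl⟩ := hsurj a'
  have h1 : (f - q * a).map (Int.castRingHom (ZMod p)) = 0 := by
    rw [Polynomial.map_sub, Polynomial.map_mul, hq, ha', sub_self]
  have h2 : C (p : ℤ) ∣ f - q * a := by
    rw [C_dvd_iff_dvd_coeff]
    intro i
    have := congrArg (fun r => r.coeff i) h1
    simp only [coeff_map, coeff_zero, eq_intCast] at this
    exact (ZMod.intCast_zmod_eq_zero_iff_dvd _ p).1 this
  obtain ⟨b, hb⟩ := h2
  exact ⟨a, b, by rw [← hb]; ring⟩

theorem not_both {m : ℕ} (hm : m < p) (hp2 : p ≠ 2) (hm1 : 1 ≤ m) {g h : ℤ[X]}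
    (e : g * h = val m X) (t : K) (ht : t ^ 2 = -1) (hg : aeval t g = 0) (hh : aeval t h = 0) :
    False := by
  have hp : p.Prime := Fact.out
  have : CharP K p := charP_of_injective_algebraMap (algebraMap (ZMod p) K).injective p
  have h2 : (2 : K) ≠ 0 := by
    intro h
    have : p ∣ 2 := (CharP.cast_eq_zero_iff K p 2).1 (by exact_mod_cast h)
    exact hp2 ((Nat.prime_dvd_prime_iff_eq hp Nat.prime_two).1 this)
  have ht0 : t ≠ 0 := by
    rintro rfl
    simp at ht
  have ht1 : 1 - t ≠ 0 := by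
    intro h
    have : t = 1 := by linear_combination -h
    rw [this] at ht
    exact h2 (by linear_combination ht)
  obtain ⟨U, c, ε, hc, hε, hU⟩ := val_mod m hm1
  have hε0 : (ε : K) ≠ 0 := by
    intro h
    have := congrArg (fun z : ℤ => (z : K)) hε
    simp [h] at this
  rw [← e] at hU
  have hφ : aeval t (X ^ 2 + 1 : ℤ[X]) = 0 := by simp [ht]
  have hc0 : (c : K) = 0 := by
    have := congrArg (aeval t) hU
    rw [map_mul, hg, zero_mul, map_add, map_mul, hφ, zero_mul, zero_add] at this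
    simp only [map_mul, aeval_C, map_sub, map_one, aeval_X, eq_intCast, map_intCast] at this
    simpa [hε0, ht1] using this.symm
  have hU0 : aeval t U = 0 := by
    have := congrArg (fun f => aeval t (derivative f)) hU
    simp only [derivative_mul, map_add, map_mul, hg, hh, hφ, derivative_C, aeval_C, eq_intCast,
      map_intCast, hc0, derivative_X_pow, derivative_one, derivative_intCast] at this
    simpa [h2, ht0] using this.symm
  obtain ⟨c1, rfl⟩ := (CharP.intCast_eq_zero_iff K p c).1 hc0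
  obtain ⟨q, hq, hq0, hgen⟩ := exists_gen (p := p) t ht
  obtain ⟨g1, g2, rfl⟩ := hgen g hg
  obtain ⟨h1, h2', rfl⟩ := hgen h hh
  obtain ⟨u1, u2, rfl⟩ := hgen U hU0
  obtain ⟨f1, f2, hf⟩ := hgen _ hφ
  rw [hf, map_mul] at hU
  have h3 : (g1 * h1 - f1 * u1).map (Int.castRingHom (ZMod p)) = 0 := by
    have := congrArg (Polynomial.map (Int.castRingHom (ZMod p))) hU
    simp only [Polynomial.map_mul, Polynomial.map_add, map_C, eq_intCast, Int.cast_natCast,
      CharP.cast_eq_zero, map_zero, zero_mul, add_zero, map_natCast, Polynomial.map_natCast,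
      Polynomial.map_intCast] at this
    have h4 : (q.map (Int.castRingHom (ZMod p))) ^ 2
        * (g1 * h1 - f1 * u1).map (Int.castRingHom (ZMod p)) = 0 := by
      simp only [Polynomial.map_mul, Polynomial.map_sub]
      linear_combination this
    exact (mul_eq_zero.1 h4).resolve_left (pow_ne_zero _ hq0)
  have h4 : C (p : ℤ) ∣ g1 * h1 - f1 * u1 := by
    rw [C_dvd_iff_dvd_coeff]
    intro i
    have := congrArg (fun r => r.coeff i) h3
    simp only [coeff_map, coeff_zero, eq_intCast] at this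
    exact (ZMod.intCast_zmod_eq_zero_iff_dvd _ p).1 this
  obtain ⟨w, hw⟩ := h4
  have hp0 : (C (p : ℤ) : ℤ[X]) ≠ 0 := by
    rw [Ne, C_eq_zero]
    exact_mod_cast hp.ne_zero
  have h5 : C c1 * C ε * (1 - X) = q * (q * w + g1 * h2' + g2 * h1 - f1 * u2 - f2 * u1)
      + C (p : ℤ) * (g2 * h2' - f2 * u2) := by
    refine mul_left_cancel₀ hp0 ?_
    linear_combination -hU + q ^ 2 * hw
  have h6 : (c1 : K) = 0 := by
    have := congrArg (aeval t) h5
    simp only [map_mul, map_add, hq, aeval_C, map_sub, map_one, aeval_X, eq_intCast, map_intCast,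
      zero_mul, zero_add, Int.cast_natCast, CharP.cast_eq_zero, map_natCast] at this
    simpa [hε0, ht1] using this
  obtain ⟨c2, rfl⟩ := (CharP.intCast_eq_zero_iff K p c1).1 h6
  exact not_sq_dvd hp hm ⟨2 * c2, by rw [← hc]; ring⟩

end

theorem deg_mod {p j m : ℕ} [Fact p.Prime] (hm : m < p) (hj : 2 * m = p + j) (hj1 : 1 ≤ j)
    {g h : ℤ[X]} (e : g * h = val m X) (hg : ¬ (p : ℤ) ∣ g.leadingCoeff) :
    ∃ a b c : ℕ, (a = 0 ∨ a = j) ∧ (b = 0 ∨ b = j) ∧ c ≤ 1 ∧ g.natDegree = a + b + c := by
  classical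
  let K := AlgebraicClosure (ZMod p)
  have hp2 : p ≠ 2 := by omega
  have hp : p.Prime := Fact.out
  have h2 : (2 : K) ≠ 0 := by
    intro h
    have : p ∣ 2 := (CharP.cast_eq_zero_iff K p 2).1 (by exact_mod_cast h)
    exact hp2 ((Nat.prime_dvd_prime_iff_eq hp Nat.prime_two).1 this)
  obtain ⟨s, hs⟩ := IsAlgClosed.exists_pow_nat_eq (-1 : K) (n := 2) (by norm_num)
  have n1 : s ≠ -s := by
    intro h
    have h3 : 2 * s = 0 := by linear_combination h
    have h4 : s = 0 := (mul_eq_zero.1 h3).resolve_left h2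
    rw [h4] at hs
    simp at hs
  have n2 : s ≠ -1 := by
    rintro rfl
    exact h2 (by linear_combination hs)
  have n3 : -s ≠ -1 := by
    intro h
    have : s = 1 := by linear_combination -h
    rw [this] at hs
    exact h2 (by linear_combination hs)
  have e1 : g.map (Int.castRingHom K) * h.map (Int.castRingHom K)
      = (X - C s) ^ j * (X - C (-s)) ^ j * (X - C (-1)) := by
    rw [← Polynomial.map_mul, e, ← coe_mapRingHom, map_val, coe_mapRingHom, map_X,
      val_char hm hj, ← mul_pow]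
    have : (X - C s) * (X - C (-s)) = 1 + X ^ 2 := by
      have h3 : (C s : K[X]) ^ 2 = -1 := by rw [← map_pow, hs]; simp
      rw [map_neg]
      linear_combination -h3
    rw [this]
    simp [add_comm]
  have hne : (X - C s) ^ j * (X - C (-s)) ^ j * (X - C (-1) : K[X]) ≠ 0 :=
    mul_ne_zero (mul_ne_zero (pow_ne_zero _ (X_sub_C_ne_zero _)) (pow_ne_zero _ (X_sub_C_ne_zero _)))
      (X_sub_C_ne_zero _)
  have e2 := congrArg roots e1
  rw [roots_mul (e1 ▸ hne), roots_mul hne, roots_mul (left_ne_zero_of_mul hne), roots_pow,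
    roots_pow, roots_X_sub_C, roots_X_sub_C, roots_X_sub_C] at e2
  set A := (g.map (Int.castRingHom K)).roots with hA
  set B := (h.map (Int.castRingHom K)).roots with hB
  have hdeg : A.card = g.natDegree := by
    rw [hA, IsAlgClosed.card_roots_eq_natDegree, natDegree_map_of_leadingCoeff_ne_zero]
    rw [eq_intCast, Ne, CharP.intCast_eq_zero_iff K p]
    exact hg
  have hcount : ∀ x, A.count x + B.count x = (if x = s then j else 0) + (if x = -s then j else 0)
      + (if x = -1 then 1 else 0) := by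
    intro x
    have := congrArg (Multiset.count x) e2
    simpa [Multiset.count_singleton] using this
  have hnb : ∀ t : K, t ^ 2 = -1 → A.count t = 0 ∨ B.count t = 0 := by
    intro t ht
    by_contra hc
    push Not at hc
    have m1 := (mem_roots'.1 (Multiset.one_le_count_iff_mem.1 (Nat.pos_of_ne_zero hc.1))).2
    have m2 := (mem_roots'.1 (Multiset.one_le_count_iff_mem.1 (Nat.pos_of_ne_zero hc.2))).2
    refine not_both (K := K) hm hp2 (by omega) e t ht ?_ ?_
    · rw [aeval_def, eval₂_eq_eval_map]; exact m1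
    · rw [aeval_def, eval₂_eq_eval_map]; exact m2
  have c1 := hcount s
  have c2 := hcount (-s)
  have c3 := hcount (-1)
  simp only [if_true, n1, n2, n3, n1.symm, n2.symm, n3.symm, if_false] at c1 c2 c3
  have d1 := hnb s hs
  have d2 := hnb (-s) (by rw [neg_sq, hs])
  refine ⟨A.count s, A.count (-s), A.count (-1), by omega, by omega, by omega, ?_⟩
  have hA2 : A = Multiset.replicate (A.count s) s + Multiset.replicate (A.count (-s)) (-s)
      + Multiset.replicate (A.count (-1)) (-1) := by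
    ext x
    have := hcount x
    simp only [Multiset.count_add, Multiset.count_replicate]
    by_cases x1 : x = s
    · subst x1; simp [n1.symm, n2.symm]
    by_cases x2 : x = -s
    · subst x2; simp [n1, n3.symm]
    by_cases x3 : x = -1
    · subst x3; simp [n2, n3]
    simp only [x1, x2, x3, if_false] at this
    simp only [Ne.symm x1, Ne.symm x2, Ne.symm x3, if_false]
    omega
  rw [← hdeg]
  conv_lhs => rw [hA2]
  simp

/-- the constraint imposed by a prime between `m` and `2 m` on the degree of a factor -/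
theorem constraint {p m : ℕ} (hp : p.Prime) (h1 : m < p) (h2 : p < 2 * m) {g h : ℤ[X]}
    (e : g * h = val m X) (hg : g.natDegree ≠ 0) (hh : h.natDegree ≠ 0) :
    p + g.natDegree = 2 * m + 1 ∨ 2 * p + g.natDegree = 4 * m ∨
    p + h.natDegree = 2 * m + 1 ∨ 2 * p + h.natDegree = 4 * m := by
  have := Fact.mk hp
  obtain ⟨j, hj⟩ : ∃ j, 2 * m = p + j := ⟨2 * m - p, by omega⟩
  have hodd := hp.eq_two_or_odd
  have eg := even_factor e
  have eh := even_factor ((mul_comm _ _).trans e)
  rw [Nat.even_iff] at eg eh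
  by_cases hd : (p : ℤ) ∣ g.leadingCoeff
  · have hd2 : ¬ (p : ℤ) ∣ h.leadingCoeff := by
      intro hd2
      have := mul_dvd_mul hd hd2
      rw [← leadingCoeff_mul, e, leadingCoeff_val] at this
      exact not_sq_dvd hp h1 this
    obtain ⟨a, b, c, ha, hb, hc, hd⟩ := deg_mod h1 hj (by omega) ((mul_comm _ _).trans e) hd2
    omega
  · obtain ⟨a, b, c, ha, hb, hc, hd⟩ := deg_mod h1 hj (by omega) e hd
    omega

end Pool.Agent.Lib.MP_9fb898_nt
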