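import Pool.Agent.Lib.MP_9fb898_nt.Primes
import Pool.Agent.Lib.MP_9fb898_nt.Poly

/-!
Small cases and the irreducibility over the integers.
-/

set_option autoImplicit false

namespace Pool.Agent.Lib.MP_9fb898_nt

open Polynomial Finset

/-- evaluate the first argument before continuing -/
def force {α : Type} (n : ℕ) (f : ℕ → α) : α :=
  match n with
  | 0 => f 0
  | k + 1 => f (k + 1)

theorem force_eq {α : Type} (n : ℕ) (f : ℕ → α) : force n f = f n := by
  cases n <;> rfl

/-- the coefficients modulo `q + 1` of the power series quotient, in reverse order -/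
def run (q : ℕ) (g : List ℕ) : List ℕ → List ℕ → List ℕ
  | [], acc => acc
  | c :: P, acc => force ((c + q * (List.zipWith (· * ·) g acc).sum) % (q + 1))
      fun v => run q g P (v :: acc)

/-- all lists of length `k` with entries at most `q` pass the test -/
def allLists (q : ℕ) : ℕ → (List ℕ → Bool) → Bool
  | 0, f => f []
  | k + 1, f => (List.range (q + 1)).all fun a => allLists q k fun l => f (a :: l)

theorem allLists_spec (q k : ℕ) (f : List ℕ → Bool) (h : allLists q k f = true) (l : List ℕ)
    (hl : l.length = k) (hq : ∀ a ∈ l, a < q + 1) : f l = true := by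
  induction k generalizing f l with
  | zero =>
    obtain rfl := List.length_eq_zero_iff.1 hl
    exact h
  | succ k ih =>
    cases l with
    | nil => simp at hl
    | cons a l =>
      rw [allLists, List.all_eq_true] at h
      exact ih _ (h a (List.mem_range.2 (hq a (by simp)))) l (by simpa using hl)
        fun b hb => hq b (by simp [hb])

theorem zip_sum (a b : List ℕ) :
    (List.zipWith (· * ·) a b).sum = ∑ t ∈ range b.length, a.getD t 0 * b.getD t 0 := by
  induction b generalizing a with
  | nil => simp
  | cons y b ih =>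
    cases a with
    | nil => simp
    | cons x a => rw [List.length_cons, sum_range_succ', List.zipWith_cons_cons, List.sum_cons, ih]
                  simp [add_comm]

theorem run_eq {q m : ℕ} {G H : (ZMod (q + 1))[X]} (e : G * H = val m X) (h0 : G.coeff 0 = 1)
    (g : List ℕ) (hg : ∀ t, (g.getD t 0 : ℕ) = G.coeff (t + 1)) (P acc : List ℕ)
    (hP : ∀ s < P.length, P.getD s 0 = (2 * m).choose ((acc.length + s) / 2))
    (hi : acc.length + P.length ≤ 2 * m + 1)
    (h2 : ∀ t < acc.length, (acc.getD t 0 : ℕ) = H.coeff (acc.length - 1 - t)) :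
    ∀ t < acc.length + P.length,
      ((run q g P acc).getD t 0 : ℕ) = H.coeff (acc.length + P.length - 1 - t) := by
  induction P generalizing acc with
  | nil => exact h2
  | cons c P ih =>
    rw [run, force_eq]
    have := ih (((c + q * (List.zipWith (· * ·) g acc).sum) % (q + 1)) :: acc) ?_ ?_ ?_
    · simpa only [List.length_cons, add_assoc, add_comm 1] using this
    · intro s hs
      have := hP (s + 1) (by simpa using hs)
      simpa only [List.length_cons, add_assoc, add_comm 1, List.getD_cons_succ] using this
    · simp only [List.length_cons] at hi ⊢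
      omega
    · intro t ht
      simp only [List.length_cons] at hi ht ⊢
      rcases t with _ | t
      · have h3 := congrArg (fun f => f.coeff acc.length) e
        simp only [coeff_val, if_pos (show acc.length ≤ 2 * m by omega)] at h3
        rw [coeff_mul, Finset.Nat.sum_antidiagonal_eq_sum_range_succ_mk, sum_range_succ', h0] at h3
        have h4 := hP 0 (by simp)
        rw [List.getD_cons_zero, add_zero] at h4
        have h5 : (q : ZMod (q + 1)) = -1 := by
          have := ZMod.natCast_self (q + 1)
          push_cast at this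
          linear_combination this
        rw [List.getD_cons_zero, ZMod.natCast_mod, zip_sum]
        push_cast
        have : ∑ t ∈ range acc.length, ((g.getD t 0 : ℕ) : ZMod (q + 1)) * (acc.getD t 0 : ℕ)
            = ∑ t ∈ range acc.length, G.coeff (t + 1) * H.coeff (acc.length - (t + 1)) := by
          refine sum_congr rfl fun t ht => ?_
          rw [hg, h2 t (mem_range.1 ht)]
          congr 2
          omega
        rw [this, h4, ← h3, h5]
        simp
      · rw [List.getD_cons_succ, h2 t (by omega)]
        congr 1
        omega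

theorem run_lt (q : ℕ) (g P acc : List ℕ) (h : ∀ a ∈ acc, a < q + 1) :
    ∀ a ∈ run q g P acc, a < q + 1 := by
  induction P generalizing acc with
  | nil => exact h
  | cons c P ih =>
    rw [run, force_eq]
    refine ih _ fun a ha => ?_
    rcases List.mem_cons.1 ha with rfl | ha
    · exact Nat.mod_lt _ (by omega)
    · exact h a ha

theorem small {m k : ℕ} (q : ℕ) (hk : k ≤ 2 * m) (P : List ℕ) (hl : P.length = 2 * m + 1)
    (hP : ∀ i < 2 * m + 1, P.getD i 0 = (2 * m).choose (i / 2))
    (hq : allLists q k (fun g => let r := run q g P []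
      (List.range k).any fun t => r.getD t 0 != 0) = true)
    {g h : ℤ[X]} (e : g * h = val m X) (hg : g.natDegree = k)
    (hh : g.natDegree + h.natDegree = 2 * m) : False := by
  have h0 : g.coeff 0 * h.coeff 0 = 1 := by
    rw [← mul_coeff_zero, e, coeff_val]
    simp
  have hu : g.coeff 0 * g.coeff 0 = 1 := by
    rcases Int.eq_one_or_neg_one_of_mul_eq_one h0 with h | h <;> simp [h]
  set G := (C (g.coeff 0) * g).map (Int.castRingHom (ZMod (q + 1))) with hG
  set H := (C (g.coeff 0) * h).map (Int.castRingHom (ZMod (q + 1))) with hH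
  have e1 : G * H = val m X := by
    have : (C (g.coeff 0) * g) * (C (g.coeff 0) * h) = val m X := by
      rw [← e, mul_mul_mul_comm, ← C_mul, hu, C_1, one_mul]
    rw [hG, hH, ← Polynomial.map_mul, this, ← coe_mapRingHom, map_val, coe_mapRingHom, map_X]
  have e0 : G.coeff 0 = 1 := by
    rw [hG, coeff_map, coeff_C_mul, hu, map_one]
  have h1 := allLists_spec q k _ hq ((List.range k).map fun t => (G.coeff (t + 1)).val) (by simp)
    (fun a ha => by
      obtain ⟨t, -, rfl⟩ := List.mem_map.1 ha
      exact ZMod.val_lt _)
  obtain ⟨t, ht, h1⟩ := List.any_eq_true.1 h1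
  rw [List.mem_range] at ht
  have h2 := run_eq e1 e0 ((List.range k).map fun t => (G.coeff (t + 1)).val) ?_ P []
    (by simpa [hl] using hP) (by simp [hl]) (by simp) t (by simp [hl]; omega)
  · rw [hH, coeff_map, coeff_C_mul,
      coeff_eq_zero_of_natDegree_lt (p := h) (by simp [hl]; omega), mul_zero, map_zero,
      ZMod.natCast_eq_zero_iff] at h2
    have h3 : (run q ((List.range k).map fun t => (G.coeff (t + 1)).val) P []).getD t 0
        < q + 1 := by
      rw [List.getD_eq_getElem?_getD]
      rcases h4 : (run q ((List.range k).map fun t => (G.coeff (t + 1)).val) P [])[t]? with _ | a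
      · simp
      · exact run_lt q _ P [] (by simp) a (List.mem_of_getElem? h4)
    rw [Nat.eq_zero_of_dvd_of_lt h2 h3] at h1
    simp at h1
  · intro t
    by_cases ht : t < k
    · simp [List.getD_eq_getElem?_getD, ht]
    · rw [List.getD_eq_default _ _ (by simpa using ht), hG, coeff_map, coeff_C_mul,
        coeff_eq_zero_of_natDegree_lt (p := g) (n := t + 1) (by omega), mul_zero, map_zero,
        Nat.cast_zero]

theorem few : ∀ m : ℕ, m < 15 → ∀ a : ℕ, a < m + 1 → a ≠ 0 → a % 2 = 0 →
    (∀ p ∈ [5, 7, 11, 13, 17, 19, 23], m < p → p < 2 * m →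
      p + a = 2 * m + 1 ∨ 2 * p + a = 4 * m ∨ 2 * p = 2 * m + a) →
    (m = 2 ∧ a = 2) ∨ (m = 3 ∧ a = 2) ∨ (m = 4 ∧ a = 2) ∨
      (m = 5 ∧ a = 4) ∨ (m = 6 ∧ a = 2) ∨ (m = 8 ∧ a = 6) := by
  intro m hm a ha
  interval_cases m <;> interval_cases a <;> simp

theorem no_split_le {m : ℕ} {g h : ℤ[X]} (e : g * h = val m X) (hg : g.natDegree ≠ 0)
    (hle : g.natDegree ≤ h.natDegree) (hs : g.natDegree + h.natDegree = 2 * m) : False := by
  have hh : h.natDegree ≠ 0 := by omega
  have eg := even_factor e
  have eh := even_factor ((mul_comm _ _).trans e)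
  rw [Nat.even_iff] at eg eh
  have hc : ∀ p : ℕ, p.Prime → m < p → p < 2 * m →
      p + g.natDegree = 2 * m + 1 ∨ 2 * p + g.natDegree = 4 * m ∨
        2 * p + h.natDegree = 4 * m := by
    intro p hp h1 h2
    have := constraint hp h1 h2 e hg hh
    omega
  by_cases hm : 15 ≤ m
  · obtain ⟨a, b, c, d, ha, hb, hc', hd, h1, h2, h3, h4, h5⟩ := four m hm
    have := hc a ha (by omega) (by omega)
    have := hc b hb (by omega) (by omega)
    have := hc c hc' (by omega) (by omega)
    have := hc d hd (by omega) (by omega)
    omega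
  have key := few m (by omega) g.natDegree (by omega) hg eg fun p hp h1 h2 => by
    have hp' : p.Prime := by
      simp only [List.mem_cons, List.not_mem_nil, or_false] at hp
      rcases hp with rfl | rfl | rfl | rfl | rfl | rfl | rfl <;> norm_num
    have := hc p hp' h1 h2
    omega
  rcases key with ⟨rfl, k⟩ | ⟨rfl, k⟩ | ⟨rfl, k⟩ | ⟨rfl, k⟩ | ⟨rfl, k⟩ | ⟨rfl, k⟩
  · exact small 3 (by norm_num)
      [1, 1, 4, 4, 6]
      rfl (by decide +kernel) (by decide +kernel) e k hs
  · exact small 2 (by norm_num)
      [1, 1, 6, 6, 15, 15, 20]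
      rfl (by decide +kernel) (by decide +kernel) e k hs
  · exact small 2 (by norm_num)
      [1, 1, 8, 8, 28, 28, 56, 56, 70]
      rfl (by decide +kernel) (by decide +kernel) e k hs
  · exact small 4 (by norm_num)
      [1, 1, 10, 10, 45, 45, 120, 120, 210, 210, 252]
      rfl (by decide +kernel) (by decide +kernel) e k hs
  · exact small 7 (by norm_num)
      [1, 1, 12, 12, 66, 66, 220, 220, 495, 495, 792, 792, 924]
      rfl (by decide +kernel) (by decide +kernel) e k hs
  · exact small 3 (by norm_num)
      [1, 1, 16, 16, 120, 120, 560, 560, 1820, 1820, 4368, 4368, 8008, 8008, 11440, 11440, 12870]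
      rfl (by decide +kernel) (by decide +kernel) e k hs

theorem irreducible_val {m : ℕ} (hm : 1 ≤ m) : Irreducible (val m (X : ℤ[X])) := by
  have hd := natDegree_val m
  refine ⟨fun h => ?_, fun g h e => ?_⟩
  · have := natDegree_eq_zero_of_isUnit h
    omega
  have hne : g * h ≠ 0 := by
    rw [← e]
    intro h0
    rw [h0] at hd
    simp at hd
    omega
  have hs : g.natDegree + h.natDegree = 2 * m := by
    rw [← natDegree_mul (left_ne_zero_of_mul hne) (right_ne_zero_of_mul hne), ← e, hd]
  have h0 : g.coeff 0 * h.coeff 0 = 1 := by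
    rw [← mul_coeff_zero, ← e, coeff_val]
    simp
  by_cases hg : g.natDegree = 0
  · left
    rw [eq_C_of_natDegree_eq_zero hg, isUnit_C]
    exact IsUnit.of_mul_eq_one _ h0
  by_cases hh : h.natDegree = 0
  · right
    rw [eq_C_of_natDegree_eq_zero hh, isUnit_C]
    exact IsUnit.of_mul_eq_one _ ((mul_comm _ _).trans h0)
  exfalso
  rcases le_total g.natDegree h.natDegree with hle | hle
  · exact no_split_le e.symm hg hle hs
  · exact no_split_le ((mul_comm _ _).trans e.symm) hh hle (by omega)

theorem irreducible_rat {m : ℕ} (hm : 1 ≤ m) : Irreducible (val m (X : ℚ[X])) := by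
  have hp : (val m (X : ℤ[X])).IsPrimitive := by
    intro r hr
    have := (C_dvd_iff_dvd_coeff _ _).1 hr 0
    rw [coeff_val] at this
    exact isUnit_of_dvd_one (by simpa using this)
  have := (IsPrimitive.Int.irreducible_iff_irreducible_map_cast hp).1 (irreducible_val hm)
  rwa [← coe_mapRingHom, map_val, coe_mapRingHom, map_X] at this

end Pool.Agent.Lib.MP_9fb898_nt
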