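import Mathlib

/-!
At least four primes between `m` and `2 m` for `m ≥ 15`.
-/

set_option autoImplicit false

namespace Pool.Agent.Lib.MP_9fb898_nt

open Nat Finset

theorem centralBinom_le (n : ℕ) (n_large : 2 < n) :
    centralBinom n ≤ (2 * n) ^ sqrt (2 * n) * 4 ^ (2 * n / 3)
      * (2 * n) ^ ((Ioo n (2 * n)).filter Nat.Prime).card := by
  have n_pos : 0 < n := by omega
  have n2_pos : 1 ≤ 2 * n := by omega
  let f x := x ^ n.centralBinom.factorization x
  have hf : ∀ p, f p ≤ 2 * n := fun p => pow_factorization_choose_le (by omega)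
  rw [← n.prod_pow_factorization_centralBinom,
    ← prod_filter_mul_prod_filter_not (range (2 * n + 1)) (· ≤ n)]
  apply mul_le_mul'
  · let S := {p ∈ range (2 * n / 3 + 1) | Nat.Prime p}
    have h1 : ∏ x ∈ (range (2 * n + 1)).filter (· ≤ n), f x = ∏ x ∈ S, f x := by
      refine (prod_subset ?_ ?_).symm
      · intro x hx
        have := (mem_filter.1 hx).1
        simp only [mem_filter, mem_range] at this ⊢
        omega
      · intro x hx h2
        simp only [mem_filter, mem_range, S] at hx h2
        by_cases hp : x.Prime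
        · have h3 : 2 * n < 3 * x := by
            have : ¬ x < 2 * n / 3 + 1 := fun h => h2 ⟨h, hp⟩
            omega
          simp only [f]
          rw [factorization_centralBinom_of_two_mul_self_lt_three_mul n_large hx.2 h3, pow_zero]
        · simp only [f]
          rw [factorization_eq_zero_of_not_prime _ hp, pow_zero]
    rw [h1, ← prod_filter_mul_prod_filter_not S (· ≤ sqrt (2 * n))]
    apply mul_le_mul'
    · refine (prod_le_prod' fun p _ => hf p).trans ?_
      have : (Icc 1 (sqrt (2 * n))).card = sqrt (2 * n) := by rw [card_Icc, Nat.add_sub_cancel]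
      rw [prod_const]
      refine pow_right_mono₀ n2_pos ((card_le_card fun x hx => ?_).trans this.le)
      obtain ⟨h1, h2⟩ := mem_filter.1 hx
      exact mem_Icc.mpr ⟨(mem_filter.1 h1).2.one_lt.le, h2⟩
    · refine le_trans ?_ (primorial_le_four_pow (2 * n / 3))
      refine (prod_le_prod' fun p hp => (?_ : f p ≤ p)).trans ?_
      · obtain ⟨h1, h2⟩ := mem_filter.1 hp
        refine (pow_right_mono₀ (mem_filter.1 h1).2.one_lt.le ?_).trans (pow_one p).le
        exact Nat.factorization_choose_le_one (sqrt_lt'.mp <| not_le.1 h2)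
      refine prod_le_prod_of_subset_of_one_le' (filter_subset _ _) ?_
      exact fun p hp _ => (mem_filter.1 hp).2.one_lt.le
  · have h1 : ∏ x ∈ (range (2 * n + 1)).filter (fun x => ¬ x ≤ n), f x
        = ∏ x ∈ (Ioo n (2 * n)).filter Nat.Prime, f x := by
      refine (prod_subset ?_ ?_).symm
      · intro x hx
        have := (mem_filter.1 hx).1
        simp only [mem_filter, mem_range, mem_Ioo] at this ⊢
        omega
      · intro x hx h2
        simp only [mem_filter, mem_range, mem_Ioo] at hx h2
        have hp : ¬ x.Prime := by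
          intro hp
          have h3 : x = 2 * n := by
            by_contra h4
            exact h2 ⟨⟨by omega, by omega⟩, hp⟩
          have := hp.eq_one_or_self_of_dvd 2 ⟨n, h3⟩
          omega
        simp only [f]
        rw [factorization_eq_zero_of_not_prime _ hp, pow_zero]
    rw [h1]
    exact (prod_le_prod' fun p _ => hf p).trans (by rw [prod_const])

theorem pow_six_le (s : ℕ) (hs : 36 ≤ s) : (s + 1) ^ 6 ≤ 2 ^ (s - 4) := by
  induction s, hs using Nat.le_induction with
  | base => norm_num
  | succ s hs ih =>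
    have e : s + 1 - 4 = (s - 4) + 1 := by omega
    have h1 : (s + 1 + 1) ^ 6 * 37 ^ 6 ≤ (s + 1) ^ 6 * 38 ^ 6 := by
      rw [← mul_pow, ← mul_pow]
      exact Nat.pow_le_pow_left (by omega) 6
    rw [e, pow_succ 2]
    norm_num at h1
    omega

theorem main_ineq (n : ℕ) (hn : 648 ≤ n) :
    n * ((2 * n) ^ sqrt (2 * n) * 4 ^ (2 * n / 3) * (2 * n) ^ 3) ≤ 4 ^ n := by
  set s := sqrt (2 * n) with hs
  have h1 : s * s ≤ 2 * n := sqrt_le (2 * n)
  have h2 : 2 * n < (s + 1) * (s + 1) := lt_succ_sqrt (2 * n)
  have h3 : 36 ≤ s := le_sqrt.2 (by omega)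
  have h4 : n * ((2 * n) ^ s * (2 * n) ^ 3) ≤ ((s + 1) ^ 2) ^ (s + 4) := by
    have h5 : 2 * n ≤ (s + 1) ^ 2 := by nlinarith
    calc n * ((2 * n) ^ s * (2 * n) ^ 3) ≤ (2 * n) * ((2 * n) ^ s * (2 * n) ^ 3) := by
          gcongr; omega
      _ = (2 * n) ^ (s + 4) := by ring
      _ ≤ _ := Nat.pow_le_pow_left h5 _
  have h6 : (((s + 1) ^ 2) ^ (s + 4)) ^ 3 ≤ (4 ^ (n - 2 * n / 3)) ^ 3 := by
    calc (((s + 1) ^ 2) ^ (s + 4)) ^ 3 = ((s + 1) ^ 6) ^ (s + 4) := by
          simp only [← pow_mul]; congr 1; ring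
      _ ≤ (2 ^ (s - 4)) ^ (s + 4) := Nat.pow_le_pow_left (pow_six_le s h3) _
      _ = 2 ^ ((s - 4) * (s + 4)) := by rw [← pow_mul]
      _ ≤ 2 ^ (2 * ((n - 2 * n / 3) * 3)) := by
          refine Nat.pow_le_pow_right (by norm_num) ?_
          obtain ⟨t, ht⟩ : ∃ t, s = t + 4 := ⟨s - 4, by omega⟩
          have h7 : (s - 4) * (s + 4) ≤ s * s := by
            rw [ht, Nat.add_sub_cancel]; nlinarith
          omega
      _ = _ := by rw [pow_mul, ← pow_mul 4]; norm_num
  have h7 := (Nat.pow_le_pow_iff_left (by norm_num)).1 h6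
  calc n * ((2 * n) ^ s * 4 ^ (2 * n / 3) * (2 * n) ^ 3)
      = n * ((2 * n) ^ s * (2 * n) ^ 3) * 4 ^ (2 * n / 3) := by ring
    _ ≤ 4 ^ (n - 2 * n / 3) * 4 ^ (2 * n / 3) := Nat.mul_le_mul_right _ (h4.trans h7)
    _ = 4 ^ n := by rw [← pow_add]; congr 1; omega

/-- four distinct primes strictly between `m` and `2 m` -/
def Four (m : ℕ) : Prop := ∃ a b c d : ℕ, a.Prime ∧ b.Prime ∧ c.Prime ∧ d.Prime ∧
  m < a ∧ a < b ∧ b < c ∧ c < d ∧ d < 2 * m

theorem four_large (n : ℕ) (hn : 648 ≤ n) : Four n := by
  have h1 := four_pow_lt_mul_centralBinom n (by omega)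
  have h2 := centralBinom_le n (by omega)
  have h3 := main_ineq n hn
  set S := (Ioo n (2 * n)).filter Nat.Prime with hS
  have h4 : 4 ≤ S.card := by
    by_contra h
    have h5 : (2 * n) ^ S.card ≤ (2 * n) ^ 3 := Nat.pow_le_pow_right (by omega) (by omega)
    have h6 := Nat.mul_le_mul_left n (h2.trans (Nat.mul_le_mul_left _ h5))
    omega
  obtain ⟨T, hT, hc⟩ := exists_subset_card_eq h4
  have hm : ∀ i, (T.orderEmbOfFin hc i).Prime ∧ n < T.orderEmbOfFin hc i ∧
      T.orderEmbOfFin hc i < 2 * n := by
    intro i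
    have := hT (T.orderEmbOfFin_mem hc i)
    simp only [hS, mem_filter, mem_Ioo] at this
    exact ⟨this.2, this.1⟩
  have hs := (T.orderEmbOfFin hc).strictMono
  exact ⟨_, _, _, _, (hm 0).1, (hm 1).1, (hm 2).1, (hm 3).1, (hm 0).2.1, hs (by decide),
    hs (by decide), hs (by decide), (hm 3).2.2⟩

theorem four (m : ℕ) (hm : 15 ≤ m) : Four m := by
  by_cases h17 : m < 17
  · exact ⟨17, 19, 23, 29, by norm_num, by norm_num, by norm_num, by norm_num, h17, by norm_num,
      by norm_num, by norm_num, by omega⟩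
  by_cases h19 : m < 19
  · exact ⟨19, 23, 29, 31, by norm_num, by norm_num, by norm_num, by norm_num, h19, by norm_num,
      by norm_num, by norm_num, by omega⟩
  by_cases h23 : m < 23
  · exact ⟨23, 29, 31, 37, by norm_num, by norm_num, by norm_num, by norm_num, h23, by norm_num,
      by norm_num, by norm_num, by omega⟩
  by_cases h31 : m < 31
  · exact ⟨31, 37, 41, 43, by norm_num, by norm_num, by norm_num, by norm_num, h31, by norm_num,
      by norm_num, by norm_num, by omega⟩
  by_cases h47 : m < 47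
  · exact ⟨47, 53, 59, 61, by norm_num, by norm_num, by norm_num, by norm_num, h47, by norm_num,
      by norm_num, by norm_num, by omega⟩
  by_cases h73 : m < 73
  · exact ⟨73, 79, 83, 89, by norm_num, by norm_num, by norm_num, by norm_num, h73, by norm_num,
      by norm_num, by norm_num, by omega⟩
  by_cases h127 : m < 127
  · exact ⟨127, 131, 137, 139, by norm_num, by norm_num, by norm_num, by norm_num, h127, by norm_num,
      by norm_num, by norm_num, by omega⟩
  by_cases h233 : m < 233
  · exact ⟨233, 239, 241, 251, by norm_num, by norm_num, by norm_num, by norm_num, h233, by norm_num,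
      by norm_num, by norm_num, by omega⟩
  by_cases h449 : m < 449
  · exact ⟨449, 457, 461, 463, by norm_num, by norm_num, by norm_num, by norm_num, h449, by norm_num,
      by norm_num, by norm_num, by omega⟩
  by_cases h877 : m < 877
  · exact ⟨877, 881, 883, 887, by norm_num, by norm_num, by norm_num, by norm_num, h877, by norm_num,
      by norm_num, by norm_num, by omega⟩
  exact four_large m (by omega)

end Pool.Agent.Lib.MP_9fb898_nt
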